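import Pool.Agent.Lib.H49SV.H

/-! # Barycentric coordinates by matrices -/

set_option autoImplicit false

namespace Pool.Agent.Lib.H29SI

open Pool.Agent.Lib.H49SV

variable {d : ℕ}

/-- The vertices with a leading 1. -/
def mat (y : Fin (d + 1) → (Fin d → ℝ)) : Matrix (Fin (d + 1)) (Fin (d + 1)) ℝ :=
  Matrix.of fun i => (Fin.cons 1 (y i) : Fin (d + 1) → ℝ)

theorem det_mat (y : Fin (d + 1) → (Fin d → ℝ)) : (mat y).det = (diffs y).det := by
  set B : Matrix (Fin (d + 1)) (Fin (d + 1)) ℝ :=
    Matrix.of fun i => if i = 0 then (Fin.cons 1 (y 0) : Fin (d + 1) → ℝ)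
      else (Fin.cons 0 (y i - y 0) : Fin (d + 1) → ℝ) with hB
  have h1 : (mat y).det = B.det := by
    apply Matrix.det_eq_of_forall_row_eq_smul_add_const (fun i => if i = 0 then 0 else 1) 0
      (by simp)
    intro i j
    simp only [mat, hB, Matrix.of_apply]
    by_cases hi : i = 0
    · subst hi
      simp
    · simp only [hi, if_false, if_true, one_mul]
      refine Fin.cases ?_ (fun j => ?_) j
      · simp
      · simp
  rw [h1, Matrix.det_succ_column_zero, Fin.sum_univ_succ]
  have h2 : ∀ i : Fin d, B i.succ 0 = 0 := by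
    intro i
    simp [hB, Fin.succ_ne_zero]
  have h3 : B 0 0 = 1 := by simp [hB]
  simp only [h2, mul_zero, zero_mul, Finset.sum_const_zero, add_zero, h3, Fin.val_zero, pow_zero,
    mul_one, one_mul]
  congr 1

/-- The barycentric coordinates. -/
noncomputable def bc (y : Fin (d + 1) → (Fin d → ℝ)) (x : Fin d → ℝ) : Fin (d + 1) → ℝ :=
  Matrix.vecMul (Fin.cons 1 x : Fin (d + 1) → ℝ) (mat y)⁻¹

/-- Their linear parts. -/
noncomputable def bl (y : Fin (d + 1) → (Fin d → ℝ)) (v : Fin d → ℝ) : Fin (d + 1) → ℝ :=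
  Matrix.vecMul (Fin.cons 0 v : Fin (d + 1) → ℝ) (mat y)⁻¹

theorem bc_add (y : Fin (d + 1) → (Fin d → ℝ)) (x v : Fin d → ℝ) (s : ℝ) :
    bc y (x + s • v) = bc y x + s • bl y v := by
  unfold bc bl
  rw [← Matrix.smul_vecMul, ← Matrix.add_vecMul]
  congr 1
  funext j
  refine Fin.cases ?_ (fun j => ?_) j <;> simp

theorem bl_add (y : Fin (d + 1) → (Fin d → ℝ)) (v w : Fin d → ℝ) :
    bl y (v + w) = bl y v + bl y w := by
  unfold bl
  rw [← Matrix.add_vecMul]
  congr 1
  funext j
  refine Fin.cases ?_ (fun j => ?_) j <;> simp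

theorem bl_smul (y : Fin (d + 1) → (Fin d → ℝ)) (s : ℝ) (v : Fin d → ℝ) :
    bl y (s • v) = s • bl y v := by
  unfold bl
  rw [← Matrix.smul_vecMul]
  congr 1
  funext j
  refine Fin.cases ?_ (fun j => ?_) j <;> simp

theorem vecMul_mat (y : Fin (d + 1) → (Fin d → ℝ)) (c : Fin (d + 1) → ℝ) :
    Matrix.vecMul c (mat y) = (Fin.cons (∑ i, c i) (∑ i, c i • y i) : Fin (d + 1) → ℝ) := by
  funext j
  refine Fin.cases ?_ (fun j => ?_) j
  · simp [Matrix.vecMul, dotProduct, mat]
  · simp [Matrix.vecMul, dotProduct, mat, Finset.sum_apply]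

theorem bc_spec {y : Fin (d + 1) → (Fin d → ℝ)} (hy : (diffs y).det ≠ 0) (x : Fin d → ℝ) :
    ∑ i, bc y x i = 1 ∧ ∑ i, bc y x i • y i = x := by
  have hu : IsUnit (mat y).det := by
    rw [det_mat]
    exact isUnit_iff_ne_zero.2 hy
  have h1 : Matrix.vecMul (bc y x) (mat y) = (Fin.cons 1 x : Fin (d + 1) → ℝ) := by
    unfold bc
    rw [Matrix.vecMul_vecMul, Matrix.nonsing_inv_mul _ hu, Matrix.vecMul_one]
  rw [vecMul_mat] at h1
  exact Fin.cons_inj.1 h1

theorem bl_spec {y : Fin (d + 1) → (Fin d → ℝ)} (hy : (diffs y).det ≠ 0) (v : Fin d → ℝ) :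
    ∑ i, bl y v i = 0 ∧ ∑ i, bl y v i • y i = v := by
  have hu : IsUnit (mat y).det := by
    rw [det_mat]
    exact isUnit_iff_ne_zero.2 hy
  have h1 : Matrix.vecMul (bl y v) (mat y) = (Fin.cons 0 v : Fin (d + 1) → ℝ) := by
    unfold bl
    rw [Matrix.vecMul_vecMul, Matrix.nonsing_inv_mul _ hu, Matrix.vecMul_one]
  rw [vecMul_mat] at h1
  exact Fin.cons_inj.1 h1

theorem bc_unique {y : Fin (d + 1) → (Fin d → ℝ)} (hy : (diffs y).det ≠ 0) (x : Fin d → ℝ)
    (c : Fin (d + 1) → ℝ) (h1 : ∑ i, c i = 1) (h2 : ∑ i, c i • y i = x) : c = bc y x := by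
  have hu : IsUnit (mat y).det := by
    rw [det_mat]
    exact isUnit_iff_ne_zero.2 hy
  have h3 := vecMul_mat y c
  rw [h1, h2] at h3
  unfold bc
  rw [← h3, Matrix.vecMul_vecMul, Matrix.mul_nonsing_inv _ hu, Matrix.vecMul_one]

theorem mem_iff {y : Fin (d + 1) → (Fin d → ℝ)} (hy : (diffs y).det ≠ 0) (x : Fin d → ℝ) :
    x ∈ convexHull ℝ (Set.range y) ↔ ∀ i, 0 ≤ bc y x i := by
  constructor
  · intro h
    obtain ⟨c, hc0, hc1, hc2⟩ := mem_hull_iff y x h
    rw [← bc_unique hy x c hc1 hc2]
    exact hc0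
  · intro h
    obtain ⟨h1, h2⟩ := bc_spec hy x
    rw [← h2]
    exact (convex_convexHull ℝ _).sum_mem (fun i _ => h i) h1
      fun i _ => subset_convexHull ℝ _ ⟨i, rfl⟩

/-- Replacing a vertex multiplies the determinant by a barycentric coordinate. -/
theorem det_update {y : Fin (d + 1) → (Fin d → ℝ)} (hy : (diffs y).det ≠ 0) (x : Fin d → ℝ)
    (i : Fin (d + 1)) : (diffs (Function.update y i x)).det = bc y x i * (diffs y).det := by
  classical
  obtain ⟨h1, h2⟩ := bc_spec hy x
  rw [← det_mat, ← det_mat]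
  have h3 : mat (Function.update y i x) = (mat y).updateRow i (∑ k, bc y x k • (mat y) k) := by
    ext j l
    by_cases hj : j = i
    · subst hj
      rw [Matrix.updateRow_self]
      have h4 : (∑ k, bc y x k • (mat y) k) = (Fin.cons 1 x : Fin (d + 1) → ℝ) := by
        rw [← h1, ← h2]
        have := vecMul_mat y (bc y x)
        rw [h2] at this ⊢
        rw [← this]
        funext l
        simp [Matrix.vecMul, dotProduct, Finset.sum_apply]
      rw [h4]
      simp [mat]
    · rw [Matrix.updateRow_ne hj]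
      simp [mat, Function.update_of_ne hj]
  rw [h3, Matrix.det_updateRow_sum, smul_eq_mul]

/-- The stellar subdivision at a point of a simplex covers the simplex. -/
theorem subdivide {y : Fin (d + 1) → (Fin d → ℝ)} (hy : (diffs y).det ≠ 0) {x z : Fin d → ℝ}
    (hx : x ∈ convexHull ℝ (Set.range y)) (hz : z ∈ convexHull ℝ (Set.range y)) :
    ∃ i, 0 < bc y x i ∧ z ∈ convexHull ℝ (Set.range (Function.update y i x)) := by
  classical
  have hx0 := (mem_iff hy x).1 hx
  have hz0 := (mem_iff hy z).1 hz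
  obtain ⟨hx1, hx2⟩ := bc_spec hy x
  obtain ⟨hz1, hz2⟩ := bc_spec hy z
  set l := bc y x with hl
  set c := bc y z with hc
  have hne : (Finset.univ.filter fun i => 0 < l i).Nonempty := by
    by_contra hcon
    rw [Finset.not_nonempty_iff_eq_empty, Finset.filter_eq_empty_iff] at hcon
    have : ∑ i, l i ≤ 0 := Finset.sum_nonpos fun i _ => not_lt.1 (hcon (Finset.mem_univ i))
    linarith
  obtain ⟨i, hi, hmin⟩ := Finset.exists_min_image (Finset.univ.filter fun i => 0 < l i)
    (fun i => c i / l i) hne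
  rw [Finset.mem_filter] at hi
  have hli := hi.2
  set s := c i / l i with hs
  have hs0 : 0 ≤ s := div_nonneg (hz0 i) hli.le
  have hsi : s * l i = c i := by
    rw [hs]
    field_simp
  refine ⟨i, hli, ?_⟩
  set e : Fin (d + 1) → ℝ := fun j => if j = i then s else c j - s * l j with he
  have he0 : ∀ j, 0 ≤ e j := by
    intro j
    simp only [he]
    split_ifs with hj
    · exact hs0
    · rcases (hx0 j).lt_or_eq with h | h
      · have h5 := hmin j (by rw [Finset.mem_filter]; exact ⟨Finset.mem_univ j, h⟩)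
        have h6 : s ≤ c j / l j := h5
        rw [le_div_iff₀ h] at h6
        linarith
      · rw [← h, mul_zero, sub_zero]
        exact hz0 j
  have he' : ∀ j, e j = (c j - s * l j) + if j = i then s else 0 := by
    intro j
    simp only [he]
    split_ifs with hj
    · subst hj
      rw [hsi]
      ring
    · ring
  have he1 : ∑ j, e j = 1 := by
    simp only [he']
    rw [Finset.sum_add_distrib, Finset.sum_sub_distrib, ← Finset.mul_sum, hz1, hx1]
    simp
  have he2 : ∑ j, e j • Function.update y i x j = z := by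
    have h7 : ∀ j, e j • Function.update y i x j =
        (c j • y j - s • (l j • y j)) + if j = i then s • x else 0 := by
      intro j
      by_cases hj : j = i
      · subst hj
        simp only [he, if_true, Function.update_self]
        rw [smul_smul, hsi]
        simp
      · simp only [he, hj, if_false, Function.update_of_ne hj, add_zero, smul_smul, sub_smul]
    simp only [h7]
    rw [Finset.sum_add_distrib, Finset.sum_sub_distrib, ← Finset.smul_sum, hz2, hx2]
    simp
  rw [← he2]
  exact (convex_convexHull ℝ _).sum_mem (fun j _ => he0 j) he1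
    fun j _ => subset_convexHull ℝ _ ⟨j, rfl⟩

end Pool.Agent.Lib.H29SI
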