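import Pool.Agent.Lib.H29SI.A

/-! # Simplices around a point -/

set_option autoImplicit false

namespace Pool.Agent.Lib.H29SI

open Pool.Agent.Lib.H49SV Module

variable {d : ℕ}

/-- The vertices with positive weight. -/
noncomputable def supp (y : Fin (d + 1) → (Fin d → ℝ)) (p : Fin d → ℝ) : Finset (Fin (d + 1)) :=
  Finset.univ.filter fun i => 0 < bc y p i

/-- The sum of the linear parts of the other coordinates. -/
noncomputable def phi (y : Fin (d + 1) → (Fin d → ℝ)) (p : Fin d → ℝ) : (Fin d → ℝ) →ₗ[ℝ] ℝ where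
  toFun v := ∑ i ∈ (supp y p)ᶜ, bl y v i
  map_add' v w := by simp [bl_add, Finset.sum_add_distrib]
  map_smul' s v := by simp [bl_smul, Finset.mul_sum]

/-- The directions of the face of the point. -/
noncomputable def dir (y : Fin (d + 1) → (Fin d → ℝ)) (p : Fin d → ℝ) :
    Submodule ℝ (Fin d → ℝ) where
  carrier := {v | ∀ i ∉ supp y p, bl y v i = 0}
  add_mem' {v w} hv hw i hi := by
    simp only [Set.mem_ofPred_eq] at hv hw
    rw [bl_add, Pi.add_apply, hv i hi, hw i hi, add_zero]
  zero_mem' i hi := by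
    have := bl_smul y 0 0
    rw [zero_smul, zero_smul] at this
    rw [this]
    rfl
  smul_mem' s v hv i hi := by
    simp only [Set.mem_ofPred_eq] at hv
    rw [bl_smul, Pi.smul_apply, hv i hi, smul_zero]

theorem finrank_dir {y : Fin (d + 1) → (Fin d → ℝ)} (hy : (diffs y).det ≠ 0) (p : Fin d → ℝ)
    (hne : (supp y p).Nonempty) : finrank ℝ (dir y p) ≤ (supp y p).card - 1 := by
  classical
  obtain ⟨j, hj⟩ := hne
  set F : Finset (Fin d → ℝ) := ((supp y p).erase j).image fun i => y i - y j with hF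
  have h1 : dir y p ≤ Submodule.span ℝ (F : Set (Fin d → ℝ)) := by
    intro v hv
    obtain ⟨h2, h3⟩ := bl_spec hy v
    have hv' : ∀ i ∉ supp y p, bl y v i = 0 := hv
    have h4 : v = ∑ i, bl y v i • (y i - y j) := by
      simp only [smul_sub]
      rw [Finset.sum_sub_distrib, h3, ← Finset.sum_smul, h2, zero_smul, sub_zero]
    rw [h4]
    apply Submodule.sum_mem
    intro i _
    by_cases hi : i ∈ supp y p
    · by_cases hij : i = j
      · subst hij
        simp
      · apply Submodule.smul_mem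
        apply Submodule.subset_span
        rw [hF, Finset.coe_image]
        exact ⟨i, Finset.mem_coe.2 (Finset.mem_erase.2 ⟨hij, hi⟩), rfl⟩
    · rw [hv' i hi, zero_smul]
      exact Submodule.zero_mem _
  calc finrank ℝ (dir y p) ≤ finrank ℝ (Submodule.span ℝ (F : Set (Fin d → ℝ))) :=
        Submodule.finrank_mono h1
    _ ≤ F.card := finrank_span_finset_le_card F
    _ ≤ ((supp y p).erase j).card := Finset.card_image_le
    _ = (supp y p).card - 1 := Finset.card_erase_of_mem hj

theorem around {ι : Type} (T : Finset ι) (y : ι → Fin (d + 1) → (Fin d → ℝ)) (p : Fin d → ℝ)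
    (hdet : ∀ u ∈ T, (diffs (y u)).det ≠ 0)
    (hp : ∀ u ∈ T, p ∈ convexHull ℝ (Set.range (y u)))
    (hk : ∀ u ∈ T, 2 ≤ (supp (y u) p).card)
    (hcov : ∀ v : Fin d → ℝ, ∃ s : ℝ, 0 < s ∧ ∃ u ∈ T, p + s • v ∈ convexHull ℝ (Set.range (y u))) :
    d ≤ ∑ u ∈ T, ((supp (y u) p).card - 1) := by
  classical
  by_contra hcon
  push Not at hcon
  obtain ⟨s0, -, u0, hu0, -⟩ := hcov 0
  set Φ : (Fin d → ℝ) →ₗ[ℝ] ({u // u ∈ T.erase u0} → ℝ) :=
    LinearMap.pi fun u => phi (y u.1) p with hΦ
  have hW : d - (T.card - 1) ≤ finrank ℝ (LinearMap.ker Φ) := by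
    have h1 := LinearMap.finrank_range_add_finrank_ker Φ
    have h2 : finrank ℝ (LinearMap.range Φ) ≤ T.card - 1 := by
      calc finrank ℝ (LinearMap.range Φ) ≤ finrank ℝ ({u // u ∈ T.erase u0} → ℝ) :=
            Submodule.finrank_le _
        _ = T.card - 1 := by
          rw [Module.finrank_fintype_fun_eq_card, Fintype.card_coe, Finset.card_erase_of_mem hu0]
    rw [Module.finrank_fintype_fun_eq_card, Fintype.card_fin] at h1
    omega
  have hsmall : ∀ u ∈ T, (supp (y u) p).card - 1 < d - (T.card - 1) := by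
    intro u hu
    have h1 := Finset.add_sum_erase T (fun u => (supp (y u) p).card - 1) hu
    have h2 : (T.erase u).card • 1 ≤ ∑ x ∈ T.erase u, ((supp (y x) p).card - 1) := by
      apply Finset.card_nsmul_le_sum
      intro x hx
      have := hk x (Finset.mem_of_mem_erase hx)
      omega
    rw [Finset.card_erase_of_mem hu, smul_eq_mul, mul_one] at h2
    omega
  obtain ⟨w, hwW, hw⟩ : ∃ w ∈ LinearMap.ker Φ, ∀ u ∈ T, w ∉ dir (y u) p := by
    by_contra hno
    push Not at hno
    have h1 : (⋃ u : T, ((((dir (y u.1) p).comap (LinearMap.ker Φ).subtype) :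
        Submodule ℝ (LinearMap.ker Φ)) : Set (LinearMap.ker Φ))) = Set.univ := by
      rw [Set.eq_univ_iff_forall]
      intro w
      obtain ⟨u, hu, hwu⟩ := hno w.1 w.2
      rw [Set.mem_iUnion]
      exact ⟨⟨u, hu⟩, hwu⟩
    obtain ⟨u, hu⟩ := Subspace.exists_eq_top_of_iUnion_eq_univ h1
    have h2 : LinearMap.ker Φ ≤ dir (y u.1) p := by
      intro z hz
      have : (⟨z, hz⟩ : LinearMap.ker Φ) ∈
          (dir (y u.1) p).comap (LinearMap.ker Φ).subtype := by
        rw [hu]
        exact Submodule.mem_top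
      exact this
    have h3 := Submodule.finrank_mono h2
    have h4 := finrank_dir (hdet u.1 u.2) p (by
      rw [← Finset.card_pos]
      have := hk u.1 u.2
      omega)
    have h5 := hsmall u.1 u.2
    omega
  obtain ⟨v, hv1, hv2, hv3⟩ : ∃ v : Fin d → ℝ, (∀ u ∈ T, u ≠ u0 → phi (y u) p v = 0) ∧
      phi (y u0) p v ≤ 0 ∧ ∀ u ∈ T, v ∉ dir (y u) p := by
    have hker : ∀ u ∈ T, u ≠ u0 → phi (y u) p w = 0 := by
      intro u hu hne
      have h1 : Φ w = 0 := LinearMap.mem_ker.1 hwW
      have h2 := congrFun h1 ⟨u, Finset.mem_erase.2 ⟨hne, hu⟩⟩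
      exact h2
    rcases le_total (phi (y u0) p w) 0 with h | h
    · exact ⟨w, hker, h, hw⟩
    · refine ⟨-w, ?_, ?_, ?_⟩
      · intro u hu hne
        rw [map_neg, hker u hu hne, neg_zero]
      · rw [map_neg]
        linarith
      · intro u hu hmem
        apply hw u hu
        have := Submodule.neg_mem _ hmem
        rwa [neg_neg] at this
  obtain ⟨s, hs, u, hu, hmem⟩ := hcov v
  have h1 := (mem_iff (hdet u hu) _).1 hmem
  have h2 := (mem_iff (hdet u hu) _).1 (hp u hu)
  rw [bc_add] at h1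
  have h3 : ∀ i ∉ supp (y u) p, 0 ≤ bl (y u) v i := by
    intro i hi
    have h4 : bc (y u) p i = 0 := by
      apply le_antisymm _ (h2 i)
      apply not_lt.1
      intro h5
      exact hi (Finset.mem_filter.2 ⟨Finset.mem_univ i, h5⟩)
    have h5 := h1 i
    rw [Pi.add_apply, Pi.smul_apply, h4, zero_add, smul_eq_mul] at h5
    exact nonneg_of_mul_nonneg_right h5 hs
  have h4 : phi (y u) p v ≤ 0 := by
    by_cases hne : u = u0
    · subst hne
      exact hv2
    · exact (hv1 u hu hne).le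
  apply hv3 u hu
  intro i hi
  have h5 : ∑ i ∈ (supp (y u) p)ᶜ, bl (y u) v i ≤ 0 := h4
  have h6 : ∑ i ∈ (supp (y u) p)ᶜ, bl (y u) v i = 0 :=
    le_antisymm h5 (Finset.sum_nonneg fun i hi => h3 i (Finset.mem_compl.1 hi))
  exact (Finset.sum_eq_zero_iff_of_nonneg fun i hi => h3 i (Finset.mem_compl.1 hi)).1 h6 i
    (Finset.mem_compl.2 hi)

end Pool.Agent.Lib.H29SI
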