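import Pool.Agent.Lib.H29SI.B

/-! # Refining a covering -/

set_option autoImplicit false

namespace Pool.Agent.Lib.H29SI

open Pool.Agent.Lib.H49SV Module

variable {d n : ℕ}

/-- A covering of the hull by at least `N` nondegenerate simplices with vertices in `S`, total determinant at most `V`. -/
def Cov (X : Fin n → (Fin d → ℝ)) (S : Finset (Fin n)) (N : ℕ) (V : ℝ) : Prop :=
  ∃ (ι : Type) (_ : Fintype ι) (D : ι → Fin (d + 1) → Fin n),
    (∀ u, (diffs (X ∘ D u)).det ≠ 0) ∧ (∀ u i, D u i ∈ S) ∧
    (convexHull ℝ (Set.range X) ⊆ ⋃ u, convexHull ℝ (Set.range (X ∘ D u))) ∧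
    (∑ u, |(diffs (X ∘ D u)).det| ≤ V) ∧ N ≤ Fintype.card ι

theorem supp_card_two {X : Fin n → (Fin d → ℝ)} (hX : Function.Injective X) {u : Fin (d + 1) → Fin n}
    (hu : (diffs (X ∘ u)).det ≠ 0) {x : Fin n} (hx : ∀ i, u i ≠ x)
    (hmem : X x ∈ convexHull ℝ (Set.range (X ∘ u))) : 2 ≤ (supp (X ∘ u) (X x)).card := by
  classical
  by_contra hcon
  have h0 := (mem_iff hu (X x)).1 hmem
  obtain ⟨h1, h2⟩ := bc_spec hu (X x)
  have h3 : ∀ i ∉ supp (X ∘ u) (X x), bc (X ∘ u) (X x) i = 0 := by
    intro i hi
    apply le_antisymm _ (h0 i)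
    apply not_lt.1
    intro h5
    exact hi (Finset.mem_filter.2 ⟨Finset.mem_univ i, h5⟩)
  have hc : (supp (X ∘ u) (X x)).card = 0 ∨ (supp (X ∘ u) (X x)).card = 1 := by omega
  rcases hc with hc | hc
  · rw [Finset.card_eq_zero] at hc
    have : ∑ i, bc (X ∘ u) (X x) i = 0 := Finset.sum_eq_zero fun i _ => h3 i (by rw [hc]; simp)
    rw [this] at h1
    exact zero_ne_one h1
  · obtain ⟨i, hi⟩ := Finset.card_eq_one.1 hc
    have h4 : ∀ j, j ≠ i → bc (X ∘ u) (X x) j = 0 := fun j hj => h3 j (by rw [hi]; simpa using hj)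
    rw [Finset.sum_eq_single i (fun j _ hj => h4 j hj) (by simp)] at h1
    rw [Finset.sum_eq_single i (fun j _ hj => by rw [h4 j hj, zero_smul]) (by simp), h1, one_smul] at h2
    exact hx i (hX h2)

/-- The count of the simplices around a point. -/
theorem count_point (X : Fin n → (Fin d → ℝ)) (hX : Function.Injective X) {ι : Type} [Fintype ι]
    (D : ι → Fin (d + 1) → Fin n) (hdet : ∀ u, (diffs (X ∘ D u)).det ≠ 0)
    (hcov : convexHull ℝ (Set.range X) ⊆ ⋃ u, convexHull ℝ (Set.range (X ∘ D u)))
    (x : Fin n) (hx : ∀ u i, D u i ≠ x) (T : Finset ι)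
    (hT : ∀ u, u ∈ T ↔ X x ∈ convexHull ℝ (Set.range (X ∘ D u))) :
    1 ≤ ∑ u ∈ T, ((supp (X ∘ D u) (X x)).card - 1) ∧
    (X x ∈ interior (convexHull ℝ (Set.range X)) →
      d ≤ ∑ u ∈ T, ((supp (X ∘ D u) (X x)).card - 1)) := by
  classical
  have hk : ∀ u ∈ T, 2 ≤ (supp (X ∘ D u) (X x)).card := fun u hu =>
    supp_card_two hX (hdet u) (hx u) ((hT u).1 hu)
  constructor
  · have h1 : X x ∈ ⋃ u, convexHull ℝ (Set.range (X ∘ D u)) :=
      hcov (subset_convexHull ℝ _ ⟨x, rfl⟩)
    obtain ⟨u, hu⟩ := Set.mem_iUnion.1 h1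
    have hu' := (hT u).2 hu
    calc 1 ≤ (supp (X ∘ D u) (X x)).card - 1 := by
          have := hk u hu'
          omega
      _ ≤ ∑ u ∈ T, ((supp (X ∘ D u) (X x)).card - 1) :=
          Finset.single_le_sum (f := fun u => (supp (X ∘ D u) (X x)).card - 1)
            (fun _ _ => Nat.zero_le _) hu'
  · intro hint
    apply around T (fun u => X ∘ D u) (X x) (fun u _ => hdet u) (fun u hu => (hT u).1 hu) hk
    intro v
    -- near the point only the simplices of `T` matter
    set K : Set (Fin d → ℝ) := ⋃ u ∈ (Tᶜ : Finset ι), convexHull ℝ (Set.range (X ∘ D u)) with hK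
    have hKc : IsClosed K := by
      apply Set.Finite.isClosed_biUnion (Finset.finite_toSet _)
      intro u _
      exact ((Set.finite_range _).isCompact_convexHull ℝ).isClosed
    have hxK : X x ∉ K := by
      intro h
      rw [hK, Set.mem_iUnion₂] at h
      obtain ⟨u, hu, h⟩ := h
      exact (Finset.mem_compl.1 hu) ((hT u).2 h)
    have hO : IsOpen (interior (convexHull ℝ (Set.range X)) ∩ Kᶜ) :=
      isOpen_interior.inter hKc.isOpen_compl
    have hmem : X x ∈ interior (convexHull ℝ (Set.range X)) ∩ Kᶜ := ⟨hint, hxK⟩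
    have hcont : Filter.Tendsto (fun s : ℝ => X x + s • v) (nhds 0) (nhds (X x)) := by
      have : Continuous fun s : ℝ => X x + s • v := by fun_prop
      have h2 := this.tendsto 0
      simpa using h2
    have hev : ∀ᶠ s : ℝ in nhds 0, X x + s • v ∈ interior (convexHull ℝ (Set.range X)) ∩ Kᶜ :=
      hcont.eventually (hO.mem_nhds hmem)
    have hev2 : ∀ᶠ s : ℝ in nhdsWithin 0 (Set.Ioi 0),
        X x + s • v ∈ interior (convexHull ℝ (Set.range X)) ∩ Kᶜ := nhdsWithin_le_nhds hev
    have hev3 : ∀ᶠ s : ℝ in nhdsWithin 0 (Set.Ioi 0), s ∈ Set.Ioi (0 : ℝ) := self_mem_nhdsWithin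
    obtain ⟨s, hs1, hs2⟩ := (hev2.and hev3).exists
    refine ⟨s, hs2, ?_⟩
    have h3 := hcov (interior_subset hs1.1)
    obtain ⟨u, hu⟩ := Set.mem_iUnion.1 h3
    refine ⟨u, ?_, hu⟩
    by_contra huT
    apply hs1.2
    rw [hK, Set.mem_iUnion₂]
    exact ⟨u, Finset.mem_compl.2 huT, hu⟩

/-- The stellar subdivision at a point. -/
theorem step (X : Fin n → (Fin d → ℝ)) (hX : Function.Injective X) (S : Finset (Fin n)) (N : ℕ) (V : ℝ)
    (h : Cov X S N V) (x : Fin n) (hx : x ∉ S) :
    Cov X (insert x S) (N + 1) V ∧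
      (X x ∈ interior (convexHull ℝ (Set.range X)) → Cov X (insert x S) (N + d) V) := by
  classical
  obtain ⟨ι, _, D, hdet, hS, hcov, hV, hN⟩ := h
  set P : ι → Fin (d + 1) → Prop := fun u i =>
    if X x ∈ convexHull ℝ (Set.range (X ∘ D u)) then 0 < bc (X ∘ D u) (X x) i else i = 0 with hP
  set D' : (Σ u : ι, {i // P u i}) → Fin (d + 1) → Fin n := fun w =>
    if X x ∈ convexHull ℝ (Set.range (X ∘ D w.1)) then Function.update (D w.1) w.2.1 x else D w.1
    with hD'
  set T : Finset ι := Finset.univ.filter fun u => X x ∈ convexHull ℝ (Set.range (X ∘ D u)) with hT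
  have hxD : ∀ u i, D u i ≠ x := fun u i h => hx (h ▸ hS u i)
  have hcomp : ∀ u i, X ∘ Function.update (D u) i x = Function.update (X ∘ D u) i (X x) := by
    intro u i
    funext j
    by_cases hj : j = i
    · subst hj; simp
    · simp [Function.update_of_ne hj]
  have hcard : Fintype.card (Σ u : ι, {i // P u i}) =
      Fintype.card ι + ∑ u ∈ T, ((supp (X ∘ D u) (X x)).card - 1) := by
    rw [Fintype.card_sigma]
    have h1 : ∀ u, Fintype.card {i // P u i} =
        1 + if u ∈ T then ((supp (X ∘ D u) (X x)).card - 1) else 0 := by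
      intro u
      by_cases hu : X x ∈ convexHull ℝ (Set.range (X ∘ D u))
      · have huT : u ∈ T := Finset.mem_filter.2 ⟨Finset.mem_univ u, hu⟩
        have h2 := supp_card_two hX (hdet u) (hxD u) hu
        rw [if_pos huT, Fintype.card_subtype]
        have h3 : (Finset.univ.filter fun i => P u i) = supp (X ∘ D u) (X x) := by
          ext i
          simp [hP, supp, hu]
        rw [h3]
        omega
      · have huT : u ∉ T := fun h => hu (Finset.mem_filter.1 h).2
        rw [if_neg huT, Fintype.card_subtype]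
        have h3 : (Finset.univ.filter fun i => P u i) = {0} := by
          ext i
          simp [hP, hu]
        rw [h3]
        simp
    simp only [h1]
    rw [Finset.sum_add_distrib, Finset.sum_const, Finset.card_univ, smul_eq_mul, mul_one,
      Finset.sum_ite_mem, Finset.univ_inter]
  have hcount := count_point X hX D hdet hcov x hxD T (fun u => by simp [hT])
  have hmain : ∀ M : ℕ, M ≤ Fintype.card (Σ u : ι, {i // P u i}) → Cov X (insert x S) M V := by
    intro M hM
    refine ⟨(Σ u : ι, {i // P u i}), inferInstance, D', ?_, ?_, ?_, ?_, hM⟩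
    · rintro ⟨u, i, hi⟩
      by_cases hu : X x ∈ convexHull ℝ (Set.range (X ∘ D u))
      · simp only [hD', hu, if_true]
        rw [hcomp, det_update (hdet u)]
        simp only [hP, hu, if_true] at hi
        exact mul_ne_zero hi.ne' (hdet u)
      · simp only [hD', hu, if_false]
        exact hdet u
    · rintro ⟨u, i, hi⟩ j
      by_cases hu : X x ∈ convexHull ℝ (Set.range (X ∘ D u))
      · simp only [hD', hu, if_true]
        by_cases hj : j = i
        · subst hj
          rw [Function.update_self]
          exact Finset.mem_insert_self x S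
        · rw [Function.update_of_ne hj]
          exact Finset.mem_insert_of_mem (hS u j)
      · simp only [hD', hu, if_false]
        exact Finset.mem_insert_of_mem (hS u j)
    · intro z hz
      obtain ⟨u, hzu⟩ := Set.mem_iUnion.1 (hcov hz)
      rw [Set.mem_iUnion]
      by_cases hu : X x ∈ convexHull ℝ (Set.range (X ∘ D u))
      · obtain ⟨i, hi, hzi⟩ := subdivide (hdet u) hu hzu
        refine ⟨⟨u, i, by simp only [hP, hu, if_true]; exact hi⟩, ?_⟩
        simp only [hD', hu, if_true]
        rw [hcomp]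
        exact hzi
      · refine ⟨⟨u, 0, by simp only [hP, hu, if_false]⟩, ?_⟩
        simp only [hD', hu, if_false]
        exact hzu
    · refine le_trans (le_of_eq ?_) hV
      rw [Fintype.sum_sigma]
      apply Finset.sum_congr rfl
      intro u _
      by_cases hu : X x ∈ convexHull ℝ (Set.range (X ∘ D u))
      · simp only [hD', hu, if_true]
        have h0 := (mem_iff (hdet u) (X x)).1 hu
        have h1 : ∀ i : {i // P u i}, |(diffs (X ∘ Function.update (D u) i.1 x)).det| =
            bc (X ∘ D u) (X x) i.1 * |(diffs (X ∘ D u)).det| := by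
          intro i
          rw [hcomp, det_update (hdet u), abs_mul, abs_of_nonneg (h0 i.1)]
        simp only [h1]
        rw [← Finset.sum_mul]
        have h2 : ∑ i : {i // P u i}, bc (X ∘ D u) (X x) i.1 = 1 := by
          rw [← (bc_spec (hdet u) (X x)).1]
          rw [← Finset.sum_subtype (Finset.univ.filter fun i => P u i) (by simp)
            (fun i => bc (X ∘ D u) (X x) i)]
          apply Finset.sum_filter_of_ne
          intro i _ hi
          simp only [hP, hu, if_true]
          exact lt_of_le_of_ne (h0 i) (Ne.symm hi)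
        rw [h2, one_mul]
      · simp only [hD', hu, if_false]
        rw [Finset.sum_const, Finset.card_univ]
        have h3 : Fintype.card {i // P u i} = 1 := by
          rw [Fintype.card_subtype]
          have h3 : (Finset.univ.filter fun i => P u i) = {0} := by
            ext i
            simp [hP, hu]
          rw [h3]
          simp
        rw [h3, one_smul]
  constructor
  · exact hmain _ (by rw [hcard]; have := hcount.1; omega)
  · intro hint
    exact hmain _ (by rw [hcard]; have := hcount.2 hint; omega)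

end Pool.Agent.Lib.H29SI
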