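import Pool.Agent.Lib.H29SI.C

/-! # The count with interior points -/

set_option autoImplicit false

namespace Pool.Agent.Lib.H29SI

open Pool.Agent.Lib.H49SV Module MeasureTheory

variable {d n : ℕ}

open Classical in
/-- The weight of a point: `d` in the interior of the hull, 1 on its boundary. -/
noncomputable def wt (X : Fin n → (Fin d → ℝ)) (x : Fin n) : ℕ :=
  if X x ∈ interior (convexHull ℝ (Set.range X)) then d else 1

theorem refine_all (X : Fin n → (Fin d → ℝ)) (hX : Function.Injective X) (S : Finset (Fin n)) (N : ℕ)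
    (V : ℝ) (h : Cov X S N V) (R : Finset (Fin n)) (hR : Disjoint R S) :
    ∃ S', Cov X S' (N + ∑ x ∈ R, wt X x) V ∧ S' ⊆ R ∪ S := by
  classical
  induction R using Finset.induction_on with
  | empty => exact ⟨S, by simpa using h, by simp⟩
  | insert x R hxR ih =>
    rw [Finset.disjoint_insert_left] at hR
    obtain ⟨S', hS', hsub⟩ := ih hR.2
    have hx : x ∉ S' := by
      intro hmem
      have := hsub hmem
      rw [Finset.mem_union] at this
      rcases this with h | h
      · exact hxR h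
      · exact hR.1 h
    obtain ⟨h1, h2⟩ := step X hX S' _ V hS' x hx
    refine ⟨insert x S', ?_, ?_⟩
    · rw [Finset.sum_insert hxR]
      by_cases hint : X x ∈ interior (convexHull ℝ (Set.range X))
      · have h3 := h2 hint
        have h4 : wt X x = d := by
          unfold wt
          rw [if_pos hint]
        rw [h4, show N + (d + ∑ x ∈ R, wt X x) = N + ∑ x ∈ R, wt X x + d by ring]
        exact h3
      · have h4 : wt X x = 1 := by
          unfold wt
          rw [if_neg hint]
        rw [h4, show N + (1 + ∑ x ∈ R, wt X x) = N + ∑ x ∈ R, wt X x + 1 by ring]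
        exact h1
    · rw [Finset.insert_union]
      exact Finset.insert_subset_insert x hsub

theorem cov_bound (X : Fin n → (Fin d → ℝ)) (S : Finset (Fin n)) (N : ℕ) (V δ : ℝ) (hδ : 0 ≤ δ)
    (hmin : ∀ u : Fin (d + 1) → Fin n, (diffs (X ∘ u)).det ≠ 0 → δ ≤ |(diffs (X ∘ u)).det|)
    (h : Cov X S N V) : (N : ℝ) * δ ≤ V := by
  obtain ⟨ι, _, D, hdet, -, -, hV, hN⟩ := h
  refine le_trans ?_ hV
  calc (N : ℝ) * δ ≤ (Fintype.card ι : ℝ) * δ := by
        apply mul_le_mul_of_nonneg_right _ hδ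
        exact_mod_cast hN
    _ = ∑ _u : ι, δ := by
        rw [Finset.sum_const, Finset.card_univ, nsmul_eq_mul]
    _ ≤ ∑ u, |(diffs (X ∘ D u)).det| := Finset.sum_le_sum fun u _ => hmin _ (hdet u)

/-- The degenerate simplices of a covering may be dropped. -/
theorem cover_nondeg (X : Fin n → (Fin d → ℝ)) (hspan : affineSpan ℝ (Set.range X) = ⊤)
    (t : ℕ) (F : Fin t → Fin (d + 1) → Fin n)
    (hF : convexHull ℝ (Set.range X) ⊆ ⋃ j, convexHull ℝ (Set.range (X ∘ F j))) :
    convexHull ℝ (Set.range X) ⊆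
      ⋃ j : {j // (diffs (X ∘ F j)).det ≠ 0}, convexHull ℝ (Set.range (X ∘ F j.1)) := by
  classical
  set K := convexHull ℝ (Set.range X) with hK
  set C := ⋃ j : {j // (diffs (X ∘ F j)).det ≠ 0}, convexHull ℝ (Set.range (X ∘ F j.1)) with hC
  intro z hz
  by_contra hzC
  have hCc : IsClosed C := by
    apply isClosed_iUnion_of_finite
    intro j
    exact ((Set.finite_range _).isCompact_convexHull ℝ).isClosed
  have hint : (interior K).Nonempty := interior_convexHull_nonempty_iff_affineSpan_eq_top.2 hspan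
  have hcl : z ∈ closure (interior K) := by
    rw [(convex_convexHull ℝ (Set.range X)).closure_interior_eq_closure_of_nonempty_interior hint]
    exact subset_closure hz
  obtain ⟨w, hwC, hwK⟩ := mem_closure_iff.1 hcl Cᶜ hCc.isOpen_compl hzC
  have hpos : 0 < volume (Cᶜ ∩ interior K) :=
    (hCc.isOpen_compl.inter isOpen_interior).measure_pos volume ⟨w, hwC, hwK⟩
  have hsub : Cᶜ ∩ interior K ⊆
      ⋃ j : {j // ¬ (diffs (X ∘ F j)).det ≠ 0}, convexHull ℝ (Set.range (X ∘ F j.1)) := by
    rintro y ⟨hyC, hyK⟩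
    obtain ⟨j, hj⟩ := Set.mem_iUnion.1 (hF (interior_subset hyK))
    by_cases hdet : (diffs (X ∘ F j)).det ≠ 0
    · exact absurd (Set.mem_iUnion.2 ⟨⟨j, hdet⟩, hj⟩) hyC
    · exact Set.mem_iUnion.2 ⟨⟨j, hdet⟩, hj⟩
  have hzero : volume (⋃ j : {j // ¬ (diffs (X ∘ F j)).det ≠ 0},
      convexHull ℝ (Set.range (X ∘ F j.1))) = 0 := by
    rw [measure_iUnion_null_iff]
    rintro ⟨j, hj⟩
    rw [simplex_volume, not_not.1 hj, abs_zero, ENNReal.ofReal_zero, zero_mul]
  have := measure_mono hsub (μ := volume)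
  rw [hzero] at this
  exact absurd (le_antisymm this zero_le) hpos.ne'

/-- If `t` simplices with vertices in `S` cover the hull then the other points count. -/
theorem count (X : Fin n → (Fin d → ℝ)) (hX : Function.Injective X)
    (hspan : affineSpan ℝ (Set.range X) = ⊤) (δ D : ℝ) (hδ : 0 ≤ δ) (hδD : δ ≤ D)
    (hmin : ∀ u : Fin (d + 1) → Fin n, (diffs (X ∘ u)).det ≠ 0 → δ ≤ |(diffs (X ∘ u)).det|)
    (hmax : ∀ u : Fin (d + 1) → Fin n, |(diffs (X ∘ u)).det| ≤ D)
    (t : ℕ) (F : Fin t → Fin (d + 1) → Fin n) (S : Finset (Fin n)) (hS : ∀ j i, F j i ∈ S)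
    (hF : convexHull ℝ (Set.range X) ⊆ ⋃ j, convexHull ℝ (Set.range (X ∘ F j))) :
    ((t : ℝ) + ∑ x ∈ Sᶜ, (wt X x : ℝ)) * δ ≤ t * D := by
  classical
  set J := {j // (diffs (X ∘ F j)).det ≠ 0} with hJ
  have h1 : Cov X S (Fintype.card J) ((Fintype.card J : ℝ) * D) := by
    refine ⟨J, inferInstance, fun j => F j.1, fun j => j.2, fun j i => hS j.1 i,
      cover_nondeg X hspan t F hF, ?_, le_rfl⟩
    calc ∑ u : J, |(diffs (X ∘ F u.1)).det| ≤ ∑ _u : J, D := Finset.sum_le_sum fun u _ => hmax _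
      _ = (Fintype.card J : ℝ) * D := by rw [Finset.sum_const, Finset.card_univ, nsmul_eq_mul]
  obtain ⟨S', h2, -⟩ := refine_all X hX S _ _ h1 Sᶜ disjoint_compl_left
  have h3 := cov_bound X S' _ _ δ hδ hmin h2
  push_cast at h3
  have h4 : (Fintype.card J : ℝ) ≤ t := by
    have : Fintype.card J ≤ Fintype.card (Fin t) := Fintype.card_subtype_le _
    rw [Fintype.card_fin] at this
    exact_mod_cast this
  nlinarith [mul_nonneg (sub_nonneg.2 h4) (sub_nonneg.2 hδD)]

theorem sum_wt (X : Fin n → (Fin d → ℝ)) (S : Finset (Fin n)) (m : ℕ)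
    (hm : m = {x | x ∉ S ∧ X x ∈ interior (convexHull ℝ (Set.range X))}.ncard) :
    ∑ x ∈ Sᶜ, (wt X x : ℝ) = (n : ℝ) - S.card + ((d : ℝ) - 1) * m := by
  classical
  have h1 : ∀ x, (wt X x : ℝ) = 1 + if X x ∈ interior (convexHull ℝ (Set.range X)) then ((d : ℝ) - 1) else 0 := by
    intro x
    unfold wt
    split_ifs
    · ring
    · simp
  simp only [h1]
  rw [Finset.sum_add_distrib, ← Finset.sum_filter, Finset.sum_const, Finset.sum_const, nsmul_eq_mul,
    nsmul_eq_mul, mul_one, Finset.card_compl, Fintype.card_fin]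
  have h2 : ((Sᶜ).filter fun x => X x ∈ interior (convexHull ℝ (Set.range X))).card = m := by
    rw [hm, ← Set.ncard_coe_finset]
    congr 1
    ext x
    simp
  have h3 : S.card ≤ n := by
    have := Finset.card_le_univ S
    rwa [Fintype.card_fin] at this
  rw [h2, Nat.cast_sub h3]
  ring

/-- Indices of the hull vertices. -/
theorem vertices_ext (m : ℕ) (X : Fin n → (Fin d → ℝ)) (hn : 1 ≤ n)
    (hc : ((convexHull ℝ (Set.range X)).extremePoints ℝ).ncard ≤ m) :
    ∃ w : Fin m → Fin n, convexHull ℝ (Set.range (X ∘ w)) = convexHull ℝ (Set.range X) ∧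
      ∀ i, X (w i) ∈ (convexHull ℝ (Set.range X)).extremePoints ℝ := by
  classical
  set V := (convexHull ℝ (Set.range X)).extremePoints ℝ with hV
  have hVX : V ⊆ Set.range X := extremePoints_convexHull_subset
  have hfin : V.Finite := (Set.finite_range X).subset hVX
  have hconv : convexHull ℝ V = convexHull ℝ (Set.range X) := hull_ext _ (Set.finite_range X)
  have hne : V.Nonempty := by
    rw [Set.nonempty_iff_ne_empty]
    intro h
    rw [h, convexHull_empty] at hconv
    have : X ⟨0, hn⟩ ∈ convexHull ℝ (Set.range X) := subset_convexHull ℝ _ ⟨_, rfl⟩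
    rw [← hconv] at this
    exact this
  have : Fintype V := hfin.fintype
  have : Nonempty V := hne.to_subtype
  have hcard : Fintype.card V ≤ Fintype.card (Fin m) := by
    rw [Fintype.card_fin, ← Nat.card_eq_fintype_card, Nat.card_coe_set_eq]
    exact hc
  obtain ⟨f⟩ := Function.Embedding.nonempty_of_card_le hcard
  have hg : Function.Surjective (Function.invFun f) := Function.invFun_surjective f.injective
  choose w hw using fun i : Fin m => hVX (Function.invFun f i).2
  refine ⟨w, ?_, fun i => ?_⟩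
  · rw [← hconv]
    congr 1
    ext z
    constructor
    · rintro ⟨i, rfl⟩
      rw [Function.comp_apply, hw]
      exact (Function.invFun f i).2
    · intro hz
      obtain ⟨i, hi⟩ := hg ⟨z, hz⟩
      exact ⟨i, by rw [Function.comp_apply, hw, hi]⟩
  · rw [hw]
    exact (Function.invFun f i).2

theorem ext_not_int (hd : 1 ≤ d) (K : Set (Fin d → ℝ)) {x : Fin d → ℝ} (hx : x ∈ K.extremePoints ℝ) :
    x ∉ interior K := by
  intro hint
  have hcont : Filter.Tendsto (fun s : ℝ => x + s • (fun _ => 1 : Fin d → ℝ)) (nhds 0) (nhds x) := by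
    have : Continuous fun s : ℝ => x + s • (fun _ => 1 : Fin d → ℝ) := by fun_prop
    have h2 := this.tendsto 0
    simpa using h2
  have hcont2 : Filter.Tendsto (fun s : ℝ => x - s • (fun _ => 1 : Fin d → ℝ)) (nhds 0) (nhds x) := by
    have : Continuous fun s : ℝ => x - s • (fun _ => 1 : Fin d → ℝ) := by fun_prop
    have h2 := this.tendsto 0
    simpa using h2
  have hK : K ∈ nhds x := mem_interior_iff_mem_nhds.1 hint
  have hev : ∀ᶠ s : ℝ in nhdsWithin 0 (Set.Ioi 0),
      (x + s • (fun _ => 1 : Fin d → ℝ) ∈ K ∧ x - s • (fun _ => 1 : Fin d → ℝ) ∈ K) ∧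
        s ∈ Set.Ioi (0 : ℝ) := by
    refine Filter.Eventually.and ?_ self_mem_nhdsWithin
    exact nhdsWithin_le_nhds ((hcont.eventually hK).and (hcont2.eventually hK))
  obtain ⟨s, ⟨h1, h2⟩, hs⟩ := hev.exists
  have h3 := (mem_extremePoints.1 hx).2 _ h1 _ h2 ⟨1 / 2, 1 / 2, by norm_num, by norm_num, by norm_num, by
    funext j
    simp
    ring⟩
  have h4 := congrFun h3.1 ⟨0, hd⟩
  simp at h4
  exact (ne_of_gt (Set.mem_Ioi.1 hs)) h4

end Pool.Agent.Lib.H29SI
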